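import Mathlib
import Pool.Agent.H400Z.Reg.Pos
import Pool.Agent.H400Z.Reg.Helly

set_option autoImplicit false

namespace Pool.Agent.Results.MP_88c4e5_co.AQuasi

open Pool.Agent.H400Z.Reg

universe u

/-- Both parts of Q2. First part: a quasi-identity in the language `(∨, ∧)` that holds in
`DM(H, B)` for all central arrangements in all dimensions holds in every lattice.
Second part: for each fixed dimension `d` some quasi-identity fails in some lattice and holds in
`DM(H, B)` for every central arrangement in `ℝ^d` and every base region. -/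
theorem result :
    (∀ (prem : List (LTerm × LTerm)) (p q : LTerm),
      (∀ d : ℕ, 1 ≤ d → ∀ (A : Arrangement d) (B : Region A), HoldsQuasi (DM B) prem p q) →
      ∀ (K : Type u) [Lattice K], HoldsQuasi K prem p q) ∧
    (∀ d : ℕ, 1 ≤ d → ∃ (prem : List (LTerm × LTerm)) (p q : LTerm),
      (∃ (L : Type) (_ : Lattice L), ¬ HoldsQuasi L prem p q) ∧
      ∀ (A : Arrangement d) (B : Region A), HoldsQuasi (DM B) prem p q) :=
  ⟨fun prem p q h K _ => quasi_trivial prem p q h K,
   fun d _ => ⟨hellyPrem (d + 2), hellyConc (d + 2), .var 1,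
     ⟨_, inferInstance, helly_fails (d + 2) (by omega)⟩, fun _ B => helly_holds B⟩⟩

end Pool.Agent.Results.MP_88c4e5_co.AQuasi
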