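import Mathlib
import Pool.Agent.H400Z.Reg.Pos
import Pool.Agent.H400Z.Reg.Dim5

set_option autoImplicit false

namespace Pool.Agent.Results.MP_88c4e5_co.BIdentity

open Pool.Agent.H400Z.Reg

universe u

/-- For every fixed dimension `d ≥ 5`, a lattice identity that holds in `DM(H, B)` for every
central arrangement in `ℝ^d` and every base region holds in every lattice. -/
theorem result :
    ∀ d : ℕ, 5 ≤ d → ∀ p q : LTerm,
      (∀ (A : Arrangement d) (B : Region A), HoldsIdentity (DM B) p q) →
      ∀ (K : Type u) [Lattice K], HoldsIdentity K p q :=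
  fun _ hd p q h K _ => identity_trivial hd p q h K

end Pool.Agent.Results.MP_88c4e5_co.BIdentity
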